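import Pool.Agent.L7h89.NH.Stm

set_option autoImplicit false

/-! Project NH, part KIL. -/

namespace Pool.Agent.L7h42.NH

open Polynomial
open scoped LinearAlgebra.Projectivization Matrix Classical
open Pool.Agent.L7h89.NH

theorem s_KIL (hL : S_LAM) (hT : S_TOT) : S_KIL := by
  intro F _ _ S P M x0 hS hP h3 hpsi hl hx0 hx0P hyP
  obtain ⟨-, -, hlam, -⟩ := hL F M
  have h := hT F S P M hS hP h3 hpsi hl
  have on_of : ∀ x ∈ meet S M, On x M := fun x hx => (Finset.mem_filter.1 hx).2
  rw [Finset.sum_eq_single_of_mem x0 hx0] at h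
  · rw [div_eq_zero_iff] at h
    rcases h with h | h
    · rw [Multiset.prod_eq_zero_iff] at h
      obtain ⟨p, hp, hp0⟩ := Multiset.mem_map.1 h
      have hp' := Multiset.mem_filter.1 hp
      have h5 := (hlam x0 p (on_of _ hx0) hp'.2).1 hp0
      rw [h5] at hx0P
      exact hx0P hp'.1
    · have h6 := (pow_eq_zero_iff (by norm_num)).1 h
      rw [Finset.prod_eq_zero_iff] at h6
      obtain ⟨y, hy, hy0⟩ := h6
      exact (Finset.ne_of_mem_erase hy)
        ((hlam x0 y (on_of _ hx0) (on_of _ (Finset.mem_of_mem_erase hy))).1 hy0).symm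
  · intro x hx hne
    have h7 : ((P.filter (fun p => On p M)).map (fun p => lam M x p)).prod = 0 := by
      rw [Multiset.prod_eq_zero_iff]
      refine Multiset.mem_map.2 ⟨x, Multiset.mem_filter.2 ⟨hyP x hx hne, on_of x hx⟩, ?_⟩
      exact (hlam x x (on_of x hx) (on_of x hx)).2 rfl
    rw [h7, zero_div]

end Pool.Agent.L7h42.NH
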