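import Pool.Agent.L7h89.NH.Stm

set_option autoImplicit false

/-! Project NH, part PAR: the pencil of a point. -/

namespace Pool.Agent.L7h42.NH

open Polynomial
open scoped LinearAlgebra.Projectivization Matrix Classical
open Pool.Agent.L7h89.NH

theorem s_PAR (hB : S_BAS) : S_PAR := by
  intro F _ _ S x hS hx
  obtain ⟨hsym, htwo, -, hlines, -, -, -⟩ := hB F
  -- a line through `x` without other points of `S`
  let L : Finset (Pt F) := Finset.univ.filter (fun l : Pt F => On x l)
  have hL : L.card = Fintype.card F + 1 := hlines x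
  have hex : ∃ m ∈ L, ∀ s ∈ S, s ≠ x → ¬ On s m := by
    by_contra hcon
    push Not at hcon
    choose! f hf1 hf2 hf3 using hcon
    have hle : L.card ≤ (S.erase x).card := by
      refine Finset.card_le_card_of_injOn f (fun m hm => ?_) ?_
      · exact Finset.mem_coe.2 (Finset.mem_erase.2 ⟨hf2 m hm, hf1 m hm⟩)
      · intro m hm m' hm' he
        obtain ⟨l, -, -, hl⟩ := htwo x (f m) (hf2 m hm).symm
        have h1 := hl m (Finset.mem_filter.1 hm).2 (hf3 m hm)
        have h2 := hl m' (Finset.mem_filter.1 hm').2 (he ▸ hf3 m' hm')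
        rw [h1, h2]
    rw [Finset.card_erase_of_mem hx, hS, hL] at hle
    omega
  obtain ⟨m, hm, hmS⟩ := hex
  have hxm : x.rep ⬝ᵥ m.rep = 0 := (Finset.mem_filter.1 hm).2
  -- another line through `x`
  have hex2 : ∃ m' ∈ L, m' ≠ m := by
    have h1 : 1 < L.card := by
      rw [hL]
      have : 0 < Fintype.card F := Fintype.card_pos
      omega
    obtain ⟨a, b, ha, hb, hab⟩ := Finset.one_lt_card_iff.1 h1
    by_cases ham : a = m
    · exact ⟨b, hb, fun h => hab (ham.trans h.symm)⟩
    · exact ⟨a, ha, ham⟩
  obtain ⟨m', hm', hmm'⟩ := hex2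
  have hxm' : x.rep ⬝ᵥ m'.rep = 0 := (Finset.mem_filter.1 hm').2
  have hcr : crossProduct m'.rep m.rep ≠ 0 := by
    intro h0
    apply hmm'
    have := (Projectivization.mk_eq_mk_iff_crossProduct_eq_zero m'.rep_nonzero m.rep_nonzero).2 h0
    rwa [Projectivization.mk_rep, Projectivization.mk_rep] at this
  -- the cross product is a multiple of `x.rep`
  have hpar : crossProduct (crossProduct m'.rep m.rep) x.rep = 0 := by
    rw [cross_cross_eq_smul_sub_smul]
    rw [dotProduct_comm] at hxm hxm'
    simp [hxm, hxm']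
  have hmk := (Projectivization.mk_eq_mk_iff_crossProduct_eq_zero hcr x.rep_nonzero).2 hpar
  obtain ⟨κ, hκ⟩ := (Projectivization.mk_eq_mk_iff F _ _ hcr x.rep_nonzero).1 hmk
  have hκ' : (κ : F) • x.rep = crossProduct m'.rep m.rep := hκ
  set t : Fin 3 → F := m.rep with ht
  set e : Fin 3 → F := (κ⁻¹ : Fˣ) • m'.rep with he
  have he' : e = ((κ⁻¹ : Fˣ) : F) • m'.rep := rfl
  have hxe : x.rep ⬝ᵥ e = 0 := by
    rw [he', dotProduct_smul, hxm', smul_zero]
  have hcross : crossProduct e t = x.rep := by
    rw [he', map_smul, LinearMap.smul_apply, ← hκ', smul_smul]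
    simp
  clear_value e
  have hdiff : ∀ c c' : F, crossProduct (e + c • t) (e + c' • t) = (c' - c) • x.rep := by
    intro c c'
    simp only [map_add, map_smul, LinearMap.add_apply, LinearMap.smul_apply, cross_self, smul_zero,
      zero_add, add_zero]
    rw [← cross_anticomm e t, hcross]
    module
  have hct : ∀ c : F, crossProduct (e + c • t) t = x.rep := by
    intro c
    simp only [map_add, map_smul, LinearMap.add_apply, LinearMap.smul_apply, cross_self, smul_zero,
      add_zero]
    exact hcross
  have hne : ∀ c : F, e + c • t ≠ 0 := by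
    intro c h0
    have := hct c
    rw [h0] at this
    simp only [map_zero, LinearMap.zero_apply] at this
    exact x.rep_nonzero this.symm
  let g : F → Pt F := fun c => Projectivization.mk F (e + c • t) (hne c)
  have hgrep : ∀ c, ∃ r : F, r ≠ 0 ∧ (g c).rep = r • (e + c • t) := by
    intro c
    obtain ⟨a, ha⟩ := Projectivization.exists_smul_eq_mk_rep F (e + c • t) (hne c)
    exact ⟨a, a.ne_zero, ha.symm⟩
  have hginj : ∀ c c', g c = g c' → c = c' := by
    intro c c' h
    have h1 := (Projectivization.mk_eq_mk_iff_crossProduct_eq_zero (hne c) (hne c')).1 h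
    rw [hdiff] at h1
    rcases smul_eq_zero.1 h1 with h2 | h2
    · exact (sub_eq_zero.1 h2).symm
    · exact absurd h2 x.rep_nonzero
  have hgm : ∀ c, g c ≠ m := by
    intro c h
    have h0 : Projectivization.mk F (e + c • t) (hne c) = Projectivization.mk F m.rep m.rep_nonzero := by
      rw [Projectivization.mk_rep]
      exact h
    have h1 := (Projectivization.mk_eq_mk_iff_crossProduct_eq_zero (hne c) m.rep_nonzero).1 h0
    rw [hct] at h1
    exact x.rep_nonzero h1
  have hong : ∀ c, On x (g c) := by
    intro c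
    obtain ⟨r, -, hr⟩ := hgrep c
    show x.rep ⬝ᵥ (g c).rep = 0
    rw [hr, dotProduct_smul, dotProduct_add, dotProduct_smul, hxe, hxm]
    simp
  have hall : insert m (Finset.univ.image g) = L := by
    refine Finset.eq_of_subset_of_card_le ?_ ?_
    · intro l hl
      rcases Finset.mem_insert.1 hl with h | h
      · rw [h]
        exact hm
      · obtain ⟨c, -, rfl⟩ := Finset.mem_image.1 h
        exact Finset.mem_filter.2 ⟨Finset.mem_univ _, hong c⟩
    · rw [hL, Finset.card_insert_of_notMem, Finset.card_image_of_injective _ (fun c c' => hginj c c'),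
        Finset.card_univ]
      intro h
      obtain ⟨c, -, hc⟩ := Finset.mem_image.1 h
      exact hgm c hc
  refine ⟨e, t, g, m, hxe, hxm, hcross, ?_, hgrep, hginj, ?_, hgm, ?_⟩
  · intro s hs hsx h0
    exact hmS s hs hsx h0
  · intro l
    have h1 : l ∈ L ↔ On x l := by simp [L]
    rw [← h1, ← hall]
    simp only [Finset.mem_insert, Finset.mem_image, Finset.mem_univ, true_and]
    constructor
    · rintro (h | ⟨c, hc⟩)
      · exact Or.inl h
      · exact Or.inr ⟨c, hc.symm⟩
    · rintro (h | ⟨c, hc⟩)
      · exact Or.inl h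
      · exact Or.inr ⟨c, hc.symm⟩
  · intro s hs hsm
    by_contra hsx
    exact hmS s hs hsx hsm

end Pool.Agent.L7h42.NH
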