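import Pool.Agent.L7h89.NH.Stm

set_option autoImplicit false

/-! Project NH, part PEN: the pencil identity. -/

namespace Pool.Agent.L7h42.NH

open Polynomial
open scoped LinearAlgebra.Projectivization Matrix Classical
open Pool.Agent.L7h89.NH

theorem natDegree_lin {F : Type} [Field F] (a b : F) : (C a + C b * X : F[X]).natDegree ≤ 1 := by
  compute_degree

theorem natDegree_prod_lin {F : Type} [Field F] (P : Multiset (Pt F)) (e t : Fin 3 → F) :
    ((P.map (fun p => (C (p.rep ⬝ᵥ e) + C (p.rep ⬝ᵥ t) * X : F[X]))).prod).natDegree ≤ P.card := by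
  induction P using Multiset.induction with
  | empty => simp
  | cons p P ih =>
    rw [Multiset.map_cons, Multiset.prod_cons, Multiset.card_cons]
    refine natDegree_mul_le.trans ?_
    have := natDegree_lin (p.rep ⬝ᵥ e) (p.rep ⬝ᵥ t)
    omega

theorem s_PEN (_hB : S_BAS) (hU : S_UNI) (hPAR : S_PAR) (hE : S_EVA) : S_PEN := by
  intro F _ _ S P x hS hP hx hxP hpsi
  obtain ⟨e, t, g, m, hxe, hxt, hcr, hst, hg, hginj, hlines, hgm, hSm⟩ := hPAR F S x hS hx
  have hon : ∀ (s : Pt F) (c : F), On s (g c) ↔ s.rep ⬝ᵥ (e + c • t) = 0 := by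
    intro s c
    obtain ⟨r, hr, hrep⟩ := hg c
    show s.rep ⬝ᵥ (g c).rep = 0 ↔ _
    rw [hrep, dotProduct_smul, smul_eq_zero]
    simp [hr]
  have hdot : ∀ (s : Pt F) (c : F), s.rep ⬝ᵥ (e + c • t) = s.rep ⬝ᵥ e + c * (s.rep ⬝ᵥ t) := by
    intro s c
    rw [dotProduct_add, dotProduct_smul, smul_eq_mul]
  let ts : Pt F → F := fun s => - (s.rep ⬝ᵥ e) / (s.rep ⬝ᵥ t)
  have hts : ∀ s ∈ S, s ≠ x → ∀ c, On s (g c) ↔ ts s = c := by
    intro s hs hsx c
    have h := hst s hs hsx
    rw [hon, hdot]
    show _ ↔ -(s.rep ⬝ᵥ e) / (s.rep ⬝ᵥ t) = c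
    rw [div_eq_iff h]
    constructor
    · intro h1
      linear_combination -h1
    · intro h1
      linear_combination -h1
  have hxg : ∀ c, On x (g c) := fun c => (hon x c).2 (by rw [hdot, hxe, hxt]; ring)
  have hmeet : ∀ c, meet S (g c) = insert x ((S.erase x).filter (fun s => ts s = c)) := by
    intro c
    ext s
    simp only [meet, Finset.mem_filter, Finset.mem_insert, Finset.mem_erase]
    constructor
    · rintro ⟨hs, hsc⟩
      by_cases hsx : s = x
      · exact Or.inl hsx
      · exact Or.inr ⟨⟨hsx, hs⟩, (hts s hs hsx c).1 hsc⟩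
    · rintro (rfl | ⟨⟨hsx, hs⟩, hsc⟩)
      · exact ⟨hx, hxg c⟩
      · exact ⟨hs, (hts s hs hsx c).2 hsc⟩
  let k : F → ℕ := fun c => ((S.erase x).filter (fun s => ts s = c)).card
  have hdeg : ∀ c, deg S (g c) = k c + 1 := by
    intro c
    show (meet S (g c)).card = _
    rw [hmeet, Finset.card_insert_of_notMem]
    simp
  have hk : ∑ c, k c = Fintype.card F := by
    have h1 := Finset.card_eq_sum_card_fiberwise (f := ts) (s := S.erase x) (t := Finset.univ)
      (fun _ _ => Finset.mem_coe.2 (Finset.mem_univ _))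
    rw [Finset.card_erase_of_mem hx, hS] at h1
    simpa [k] using h1.symm
  -- the polynomials
  let lin : Pt F → F[X] := fun p => C (p.rep ⬝ᵥ e) + C (p.rep ⬝ᵥ t) * X
  let H : F[X] := (P.map lin).prod
  have hH : H.natDegree + 4 ≤ Fintype.card F := by
    have := natDegree_prod_lin P e t
    have h2 : H.natDegree ≤ P.card := this
    omega
  let R : F → F[X] := fun c => ((P.filter (fun p => On p (g c))).map
    (fun p => C (p.rep ⬝ᵥ t))).prod * ((P.filter (fun p => ¬ On p (g c))).map lin).prod
  let Q : F → F[X] := fun c => (X - C c) ^ (psi P (g c) - 3 * (k c - 1)) * R c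
  have hHR : ∀ c, H = (X - C c) ^ (psi P (g c)) * R c := by
    intro c
    have h1 : H = ((P.filter (fun p => On p (g c))).map lin).prod *
        ((P.filter (fun p => ¬ On p (g c))).map lin).prod := by
      rw [← Multiset.prod_add, ← Multiset.map_add, Multiset.filter_add_not]
    have h2 : ((P.filter (fun p => On p (g c))).map lin).prod =
        (X - C c) ^ (psi P (g c)) * ((P.filter (fun p => On p (g c))).map
          (fun p => C (p.rep ⬝ᵥ t))).prod := by
      have h3 : (P.filter (fun p => On p (g c))).map lin =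
          (P.filter (fun p => On p (g c))).map (fun p => (X - C c) * C (p.rep ⬝ᵥ t)) := by
        refine Multiset.map_congr rfl fun p hp => ?_
        have h4 := (Multiset.mem_filter.1 hp).2
        rw [hon, hdot] at h4
        have h5 : p.rep ⬝ᵥ e = - (c * (p.rep ⬝ᵥ t)) := by linear_combination h4
        show C (p.rep ⬝ᵥ e) + C (p.rep ⬝ᵥ t) * X = _
        rw [h5]
        simp only [map_neg, map_mul]
        ring
      rw [h3, Multiset.prod_map_mul, Multiset.map_const', Multiset.prod_replicate]
      rfl
    rw [h1, h2]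
    show _ = (X - C c) ^ (psi P (g c)) * (_ * _)
    ring
  have hle : ∀ c, 3 * (k c - 1) ≤ psi P (g c) := by
    intro c
    have h1 := hpsi (g c) (hxg c)
    rw [hdeg c] at h1
    have h2 : k c + 1 - 2 = k c - 1 := by omega
    rwa [h2] at h1
  have hHQ : ∀ c, H = (X - C c) ^ (3 * (k c - 1)) * Q c := by
    intro c
    show H = (X - C c) ^ (3 * (k c - 1)) * ((X - C c) ^ (psi P (g c) - 3 * (k c - 1)) * R c)
    rw [← mul_assoc, ← pow_add, Nat.add_sub_cancel' (hle c)]
    exact hHR c
  have huni := hU F k H Q hk hH hHQ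
  -- the values
  let κ : F := ∏ s ∈ S.erase x, s.rep ⬝ᵥ t
  have hκ : κ ≠ 0 := Finset.prod_ne_zero_iff.2 fun s hs =>
    hst s (Finset.mem_of_mem_erase hs) (Finset.ne_of_mem_erase hs)
  have hRe : ∀ c, (R c).eval c = ((P.filter (fun p => On p (g c))).map
      (fun p => p.rep ⬝ᵥ t)).prod * ((P.filter (fun p => ¬ On p (g c))).map
        (fun p => p.rep ⬝ᵥ (e + c • t))).prod := by
    intro c
    show eval c (_ * _) = _
    rw [eval_mul, eval_multiset_prod, eval_multiset_prod, Multiset.map_map, Multiset.map_map]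
    congr 2
    · refine Multiset.map_congr rfl fun p _ => ?_
      simp
    · refine Multiset.map_congr rfl fun p _ => ?_
      rw [hdot]
      simp [lin]
      ring
  have hkey : ∀ c, k c ≠ 0 → (Q c).eval c / (∏ b ∈ Finset.univ.erase c, (c - b) ^ k b) ^ 3 =
      - κ ^ 3 * val S P (g c) x := by
    intro c hkc
    have h2deg : 2 ≤ deg S (g c) := by
      rw [hdeg]
      omega
    have hdk : deg S (g c) - 2 = k c - 1 := by
      rw [hdeg]
      omega
    by_cases hps : psi P (g c) = 3 * (deg S (g c) - 2)
    · obtain ⟨r, hr, hrep⟩ := hg c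
      have hW := hE F S P x (g c) e t c r hS hP hx hxe hxt hcr hst hr hrep h2deg hps
      have hval : val S P (g c) x = W S P (g c) x := by
        unfold val
        rw [if_pos ⟨h2deg, hps⟩]
      rw [hval, hW]
      have hQ : (Q c).eval c = (R c).eval c := by
        show eval c ((X - C c) ^ (psi P (g c) - 3 * (k c - 1)) * R c) = _
        rw [hps, hdk]
        simp
      rw [hQ, hRe]
      have hN : S.filter (fun s => ¬ On s (g c)) = (S.erase x).filter (fun s => ts s ≠ c) := by
        ext s
        simp only [Finset.mem_filter, Finset.mem_erase]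
        constructor
        · rintro ⟨hs, hsc⟩
          have hsx : s ≠ x := by
            rintro rfl
            exact hsc (hxg c)
          exact ⟨⟨hsx, hs⟩, fun h => hsc ((hts s hs hsx c).2 h)⟩
        · rintro ⟨⟨hsx, hs⟩, hsc⟩
          exact ⟨hs, fun h => hsc ((hts s hs hsx c).1 h)⟩
      have hM : (meet S (g c)).erase x = (S.erase x).filter (fun s => ts s = c) := by
        rw [hmeet, Finset.erase_insert]
        simp
      have hprod : ∏ b ∈ Finset.univ.erase c, (c - b) ^ k b =
          ∏ s ∈ (S.erase x).filter (fun s => ts s ≠ c), (c - ts s) := by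
        rw [← Finset.prod_fiberwise_of_maps_to (s := (S.erase x).filter (fun s => ts s ≠ c))
          (t := Finset.univ.erase c) (g := ts)
          (fun s hs => Finset.mem_erase.2 ⟨(Finset.mem_filter.1 hs).2, Finset.mem_univ _⟩)]
        refine Finset.prod_congr rfl fun b hb => ?_
        have hbc := Finset.ne_of_mem_erase hb
        have h1 : ((S.erase x).filter (fun s => ts s ≠ c)).filter (fun s => ts s = b) =
            (S.erase x).filter (fun s => ts s = b) := by
          ext s
          simp only [Finset.mem_filter]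
          constructor
          · rintro ⟨⟨h, -⟩, h'⟩
            exact ⟨h, h'⟩
          · rintro ⟨h, h'⟩
            exact ⟨⟨h, by rw [h']; exact hbc⟩, h'⟩
        rw [h1]
        rw [Finset.prod_congr rfl (g := fun _ => c - b) (fun s hs => by
          rw [(Finset.mem_filter.1 hs).2])]
        rw [Finset.prod_const]
      have hquot : ∏ s ∈ (S.erase x).filter (fun s => ts s ≠ c), (c - ts s) =
          (∏ s ∈ (S.erase x).filter (fun s => ts s ≠ c), s.rep ⬝ᵥ (e + c • t)) /
            ∏ s ∈ (S.erase x).filter (fun s => ts s ≠ c), s.rep ⬝ᵥ t := by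
        rw [← Finset.prod_div_distrib]
        refine Finset.prod_congr rfl fun s hs => ?_
        have hs1 := (Finset.mem_filter.1 hs).1
        have h := hst s (Finset.mem_of_mem_erase hs1) (Finset.ne_of_mem_erase hs1)
        show c - (-(s.rep ⬝ᵥ e) / (s.rep ⬝ᵥ t)) = _
        rw [hdot]
        field_simp
        ring
      have hκ2 : κ = (∏ s ∈ (S.erase x).filter (fun s => ts s ≠ c), s.rep ⬝ᵥ t) *
          ∏ s ∈ (S.erase x).filter (fun s => ts s = c), s.rep ⬝ᵥ t := by
        rw [mul_comm]
        exact (Finset.prod_filter_mul_prod_filter_not (S.erase x) (fun s => ts s = c)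
          (fun s => s.rep ⬝ᵥ t)).symm
      rw [hprod, hquot, hκ2, hN, hM]
      have hT : ∏ s ∈ (S.erase x).filter (fun s => ts s ≠ c), s.rep ⬝ᵥ t ≠ 0 :=
        Finset.prod_ne_zero_iff.2 fun s hs => by
          have hs1 := (Finset.mem_filter.1 hs).1
          exact hst s (Finset.mem_of_mem_erase hs1) (Finset.ne_of_mem_erase hs1)
      have hBn : ∏ s ∈ (S.erase x).filter (fun s => ts s = c), s.rep ⬝ᵥ t ≠ 0 :=
        Finset.prod_ne_zero_iff.2 fun s hs => by
          have hs1 := (Finset.mem_filter.1 hs).1
          exact hst s (Finset.mem_of_mem_erase hs1) (Finset.ne_of_mem_erase hs1)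
      have hA : ∏ s ∈ (S.erase x).filter (fun s => ts s ≠ c), s.rep ⬝ᵥ (e + c • t) ≠ 0 :=
        Finset.prod_ne_zero_iff.2 fun s hs h0 => by
          have hs1 := (Finset.mem_filter.1 hs).1
          exact (Finset.mem_filter.1 hs).2
            ((hts s (Finset.mem_of_mem_erase hs1) (Finset.ne_of_mem_erase hs1) c).1
              ((hon s c).2 h0))
      generalize (∏ s ∈ (S.erase x).filter (fun s => ts s ≠ c), s.rep ⬝ᵥ t) = T at *
      generalize (∏ s ∈ (S.erase x).filter (fun s => ts s = c), s.rep ⬝ᵥ t) = B at *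
      generalize (∏ s ∈ (S.erase x).filter (fun s => ts s ≠ c), s.rep ⬝ᵥ (e + c • t)) = A at *
      field_simp
    · have hlt : 3 * (k c - 1) < psi P (g c) := by
        rw [hdk] at hps
        exact lt_of_le_of_ne (hle c) (Ne.symm hps)
      have hval : val S P (g c) x = 0 := by
        unfold val
        rw [if_neg (fun h => hps h.2)]
      have hQ : (Q c).eval c = 0 := by
        show eval c ((X - C c) ^ (psi P (g c) - 3 * (k c - 1)) * R c) = 0
        have : psi P (g c) - 3 * (k c - 1) ≠ 0 := by omega
        simp [this]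
      rw [hval, hQ]
      simp
  -- conclusion
  have hval0 : ∀ c, k c = 0 → val S P (g c) x = 0 := by
    intro c hc
    unfold val
    rw [if_neg]
    rintro ⟨h, -⟩
    rw [hdeg, hc] at h
    omega
  have hvalm : val S P m x = 0 := by
    unfold val
    rw [if_neg]
    rintro ⟨h, -⟩
    have h1 : meet S m ⊆ {x} := fun s hs => by
      have := Finset.mem_filter.1 hs
      exact Finset.mem_singleton.2 (hSm s this.1 this.2)
    have h2 := Finset.card_le_card h1
    rw [Finset.card_singleton] at h2
    exact absurd h (by unfold deg; omega)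
  have hset : Finset.univ.filter (fun l : Pt F => On x l) = insert m (Finset.univ.image g) := by
    ext l
    simp only [Finset.mem_filter, Finset.mem_univ, true_and, Finset.mem_insert, Finset.mem_image]
    rw [hlines l]
    constructor
    · rintro (h | ⟨c, hc⟩)
      · exact Or.inl h
      · exact Or.inr ⟨c, hc.symm⟩
    · rintro (h | ⟨c, hc⟩)
      · exact Or.inl h
      · exact Or.inr ⟨c, hc.symm⟩
  rw [hset, Finset.sum_insert (by
    intro h
    obtain ⟨c, -, hc⟩ := Finset.mem_image.1 h
    exact hgm c hc), hvalm, zero_add, Finset.sum_image (fun c _ c' _ h => hginj c c' h)]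
  have h1 : ∑ c ∈ Finset.univ.filter (fun c => k c ≠ 0), (- κ ^ 3 * val S P (g c) x) = 0 := by
    rw [← huni]
    refine Finset.sum_congr rfl fun c hc => ?_
    exact (hkey c (Finset.mem_filter.1 hc).2).symm
  rw [← Finset.mul_sum] at h1
  have h2 : ∑ c ∈ Finset.univ.filter (fun c => k c ≠ 0), val S P (g c) x = 0 := by
    rcases mul_eq_zero.1 h1 with h | h
    · exact absurd h (neg_ne_zero.2 (pow_ne_zero _ hκ))
    · exact h
  rw [← h2]
  symm
  refine Finset.sum_subset (Finset.filter_subset _ _) fun c _ hc => ?_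
  refine hval0 c ?_
  by_contra hne
  exact hc (Finset.mem_filter.2 ⟨Finset.mem_univ _, hne⟩)

end Pool.Agent.L7h42.NH
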